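import Pool.Agent.helper77.MC.Spec

set_option autoImplicit false

namespace Pool.Agent.helper77.MC

open Finset Numbering

theorem SG (h1 : JC_stmt) : SG_stmt := by
  intro β _ _ t A hA hanti
  have hP : 0 < #(prefixed t : Finset (Numbering β)) := by
    rw [card_prefixed]
    positivity
  have hP' : (0 : ℝ) < (#(prefixed t : Finset (Numbering β)) : ℝ) := by exact_mod_cast hP
  have hterm : ∀ s ∈ A, ((#t).choose #s : ℝ)⁻¹ =
      (#((prefixed s : Finset (Numbering β)) ∩ prefixed t) : ℝ) /
        (#(prefixed t : Finset (Numbering β)) : ℝ) := by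
    intro s hs
    have hc : 0 < (#t).choose #s := Nat.choose_pos (Finset.card_le_card (hA s hs))
    have hc' : (0 : ℝ) < ((#t).choose #s : ℝ) := by exact_mod_cast hc
    have h2 : (#((prefixed s : Finset (Numbering β)) ∩ prefixed t) : ℝ) * ((#t).choose #s : ℝ) =
        (#(prefixed t : Finset (Numbering β)) : ℝ) := by
      exact_mod_cast h1 β s t (hA s hs)
    rw [eq_div_iff hP'.ne', inv_mul_eq_iff_eq_mul₀ hc'.ne', ← h2]
    ring
  rw [Finset.sum_congr rfl hterm, ← Finset.sum_div, div_le_one hP']
  have hdisj : (A : Set (Finset β)).PairwiseDisjoint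
      (fun s => (prefixed s : Finset (Numbering β)) ∩ prefixed t) := by
    intro s hs s' hs' hne
    have h3 : ¬ s ⊆ s' := fun h => hne (hanti s hs s' hs' h)
    have h4 : ¬ s' ⊆ s := fun h => hne (hanti s' hs' s hs h).symm
    have h5 : Disjoint (prefixed s : Finset (Numbering β)) (prefixed s') :=
      disjoint_prefixed_prefixed h3 h4
    exact (h5.mono Finset.inter_subset_left Finset.inter_subset_left)
  have h6 : ∑ s ∈ A, #((prefixed s : Finset (Numbering β)) ∩ prefixed t) =
      #(A.biUnion (fun s => (prefixed s : Finset (Numbering β)) ∩ prefixed t)) :=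
    (Finset.card_biUnion hdisj).symm
  have h7 : #(A.biUnion (fun s => (prefixed s : Finset (Numbering β)) ∩ prefixed t)) ≤
      #(prefixed t : Finset (Numbering β)) := by
    apply Finset.card_le_card
    intro f hf
    rw [Finset.mem_biUnion] at hf
    obtain ⟨s, _, hf⟩ := hf
    exact (Finset.mem_inter.1 hf).2
  have h8 : (∑ s ∈ A, (#((prefixed s : Finset (Numbering β)) ∩ prefixed t) : ℝ)) =
      ((∑ s ∈ A, #((prefixed s : Finset (Numbering β)) ∩ prefixed t) : ℕ) : ℝ) := by
    push_cast
    rfl
  rw [h8]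
  exact_mod_cast h6.le.trans h7

end Pool.Agent.helper77.MC
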